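import Pool.Agent.Q152.CC.Stm2

/-! # Project CC of helper152: job FN2, the second part of the theorem -/

set_option autoImplicit false

namespace Pool.Agent.Q79.CC

open Finset Pool.Agent.Y692.QS Pool.Agent.Q152.CC

noncomputable section

/-- the final estimate of the number of exceptions -/
theorem est {δ c η C₀ : ℝ} (hδ : 0 < δ) (hc : 0 < c) (hη : 2 * η = 1 - c - 4 * δ) (hη0 : 0 < η) (hC₀ : 0 < C₀)
    {P h R g : ℕ} {X : ℝ} (hR1 : 1 ≤ R) (hRX : (R : ℝ) ≤ X) (hXR : X ≤ 2 * R) (hXP : X ^ 3 ≤ P)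
    (hg : (R : ℝ) ^ (1 - δ) ≤ g) (hh : (h : ℝ) ^ 2 ≤ 4 * P) :
    C₀ * (R : ℝ) ^ 2 * ((h : ℝ) ^ 2 * R + (R : ℝ) ^ (4 + 2 * η)) / (g : ℝ) ^ 4 ≤ 10 * C₀ * (P / X ^ c) := by
  have hR0 : (0 : ℝ) < R := by exact_mod_cast hR1
  have hR1' : (1 : ℝ) ≤ R := by exact_mod_cast hR1
  have hX0 : 0 < X := by linarith
  have hP0 : (0 : ℝ) ≤ P := Nat.cast_nonneg _
  have hR3 : (R : ℝ) ^ 3 ≤ P := (pow_le_pow_left₀ hR0.le hRX 3).trans hXP
  have hpos : 0 < (R : ℝ) ^ (1 - δ) := Real.rpow_pos_of_pos hR0 _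
  have hg4 : (R : ℝ) ^ (4 - 4 * δ) ≤ (g : ℝ) ^ 4 := by
    have h1 : ((R : ℝ) ^ (1 - δ)) ^ 4 ≤ (g : ℝ) ^ 4 := pow_le_pow_left₀ hpos.le hg 4
    have h2 : ((R : ℝ) ^ (1 - δ)) ^ 4 = (R : ℝ) ^ (4 - 4 * δ) := by
      rw [← Real.rpow_natCast, ← Real.rpow_mul hR0.le]
      congr 1
      push_cast
      ring
    rw [← h2]
    exact h1
  have hpos4 : 0 < (R : ℝ) ^ (4 - 4 * δ) := Real.rpow_pos_of_pos hR0 _
  have h1 : (R : ℝ) ≤ (R : ℝ) ^ (1 + 2 * η) := by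
    have h2 := Real.rpow_le_rpow_of_exponent_le hR1' (show (1 : ℝ) ≤ 1 + 2 * η by linarith)
    rwa [Real.rpow_one] at h2
  have h2 : (R : ℝ) ^ (4 + 2 * η) = (R : ℝ) ^ 3 * (R : ℝ) ^ (1 + 2 * η) := by
    rw [← Real.rpow_natCast, ← Real.rpow_add hR0]
    congr 1
    push_cast
    ring
  have hq0 : 0 < (R : ℝ) ^ (1 + 2 * η) := Real.rpow_pos_of_pos hR0 _
  have h3 : (h : ℝ) ^ 2 * R + (R : ℝ) ^ (4 + 2 * η) ≤ 5 * P * (R : ℝ) ^ (1 + 2 * η) := by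
    have h4 : (h : ℝ) ^ 2 * R ≤ 4 * P * (R : ℝ) ^ (1 + 2 * η) :=
      mul_le_mul hh h1 hR0.le (by positivity)
    have h5 : (R : ℝ) ^ (4 + 2 * η) ≤ P * (R : ℝ) ^ (1 + 2 * η) := by
      rw [h2]
      exact mul_le_mul_of_nonneg_right hR3 hq0.le
    linarith
  have h4 : C₀ * (R : ℝ) ^ 2 * ((h : ℝ) ^ 2 * R + (R : ℝ) ^ (4 + 2 * η)) / (g : ℝ) ^ 4 ≤
      C₀ * (R : ℝ) ^ 2 * (5 * P * (R : ℝ) ^ (1 + 2 * η)) / (R : ℝ) ^ (4 - 4 * δ) := by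
    apply div_le_div₀ (by positivity) _ hpos4 hg4
    exact mul_le_mul_of_nonneg_left h3 (by positivity)
  have h5 : C₀ * (R : ℝ) ^ 2 * (5 * P * (R : ℝ) ^ (1 + 2 * η)) / (R : ℝ) ^ (4 - 4 * δ) =
      5 * C₀ * P * (R : ℝ) ^ (-c) := by
    rw [div_eq_iff hpos4.ne']
    have h6 : (R : ℝ) ^ 2 * (R : ℝ) ^ (1 + 2 * η) = (R : ℝ) ^ (-c) * (R : ℝ) ^ (4 - 4 * δ) := by
      rw [← Real.rpow_natCast, ← Real.rpow_add hR0, ← Real.rpow_add hR0]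
      congr 1
      push_cast
      linarith
    calc C₀ * (R : ℝ) ^ 2 * (5 * P * (R : ℝ) ^ (1 + 2 * η))
        = 5 * C₀ * P * ((R : ℝ) ^ 2 * (R : ℝ) ^ (1 + 2 * η)) := by ring
      _ = 5 * C₀ * P * ((R : ℝ) ^ (-c) * (R : ℝ) ^ (4 - 4 * δ)) := by rw [h6]
      _ = _ := by ring
  have h6 : (R : ℝ) ^ (-c) ≤ 2 * X ^ (-c) := by
    have h7 : (R : ℝ) ^ (-c) ≤ (X / 2) ^ (-c) :=
      Real.rpow_le_rpow_of_nonpos (by positivity) (by linarith) (by linarith)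
    have h8 : (X / 2) ^ (-c) = 2 ^ c * X ^ (-c) := by
      rw [Real.div_rpow hX0.le (by norm_num), Real.rpow_neg (by norm_num : (0 : ℝ) ≤ 2), div_inv_eq_mul,
        mul_comm]
    have h9 : (2 : ℝ) ^ c ≤ 2 := by
      have h10 := Real.rpow_le_rpow_of_exponent_le (by norm_num : (1 : ℝ) ≤ 2) (show c ≤ 1 by linarith)
      rwa [Real.rpow_one] at h10
    have h10 : 0 < X ^ (-c) := Real.rpow_pos_of_pos hX0 _
    rw [h8] at h7
    exact h7.trans (mul_le_mul_of_nonneg_right h9 h10.le)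
  have h7 : (P : ℝ) / X ^ c = P * X ^ (-c) := by
    rw [Real.rpow_neg hX0.le, div_eq_mul_inv]
  rw [h7]
  refine h4.trans (h5.le.trans ?_)
  have h8 : 5 * C₀ * P * (R : ℝ) ^ (-c) ≤ 5 * C₀ * P * (2 * X ^ (-c)) :=
    mul_le_mul_of_nonneg_left h6 (by positivity)
  refine h8.trans (le_of_eq ?_)
  ring

theorem fn2 (ex2 : S_EX2) (cnt : S_CNT) : S_FN2 := by
  classical
  intro δ c hδ hc hcδ
  obtain ⟨η, hη⟩ : ∃ η : ℝ, 2 * η = 1 - c - 4 * δ := ⟨(1 - c - 4 * δ) / 2, by ring⟩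
  have hη0 : 0 < η := by linarith
  obtain ⟨C₀, hC₀, hex⟩ := ex2 η hη0
  have f1 : Fintype (DirichletCharacter ℂ 1) := Fintype.ofFinite _
  have f9 : Fintype (DirichletCharacter ℂ 9) := Fintype.ofFinite _
  obtain ⟨K, hK⟩ : ∃ K : ℕ, K = Fintype.card (DirichletCharacter ℂ 1) + Fintype.card (DirichletCharacter ℂ 9) :=
    ⟨_, rfl⟩
  obtain ⟨C, hC⟩ : ∃ C : ℝ, C = 6 + 70 * K * C₀ := ⟨_, rfl⟩
  have hC0 : 0 < C := by
    rw [hC]
    positivity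
  refine ⟨C, hC0, ?_⟩
  intro P X hX hXP
  have hP1 : 1 ≤ P := by
    have h1 : (1 : ℝ) ≤ X ^ 3 := one_le_pow₀ hX
    exact_mod_cast h1.trans hXP
  obtain ⟨R, hR⟩ : ∃ R : ℕ, R = ⌊X⌋₊ := ⟨_, rfl⟩
  have hR1 : 1 ≤ R := by
    rw [hR]
    exact Nat.le_floor (by exact_mod_cast hX)
  have hRX : (R : ℝ) ≤ X := by
    rw [hR]
    exact Nat.floor_le (by linarith)
  have hXR : X ≤ 2 * R := by
    have h1 := Nat.lt_floor_add_one X
    rw [← hR] at h1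
    have h2 : (1 : ℝ) ≤ R := by exact_mod_cast hR1
    linarith
  have hR1' : (1 : ℝ) ≤ R := by exact_mod_cast hR1
  obtain ⟨g, hg⟩ : ∃ g : ℕ, g = ⌈(R : ℝ) ^ (1 - δ)⌉₊ := ⟨_, rfl⟩
  have hRδ1 : 1 ≤ (R : ℝ) ^ (1 - δ) := Real.one_le_rpow hR1' (by linarith)
  have hg1 : 1 ≤ g := by
    rw [hg]
    exact Nat.one_le_ceil_iff.2 (by linarith)
  have hgR : g ≤ R := by
    rw [hg, Nat.ceil_le]
    have h1 := Real.rpow_le_rpow_of_exponent_le hR1' (show 1 - δ ≤ (1 : ℝ) by linarith)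
    rwa [Real.rpow_one] at h1
  have hg2 : (R : ℝ) ^ (1 - δ) ≤ g := by
    rw [hg]
    exact Nat.le_ceil _
  have hg3 : 3 * (g : ℝ) ≤ C * X ^ (1 - δ) := by
    have h1 : (g : ℝ) < (R : ℝ) ^ (1 - δ) + 1 := by
      rw [hg]
      exact Nat.ceil_lt_add_one (by linarith)
    have h2 : (R : ℝ) ^ (1 - δ) ≤ X ^ (1 - δ) := Real.rpow_le_rpow (by linarith) hRX (by linarith)
    have h3 : 6 ≤ C := by
      rw [hC]
      have : 0 ≤ 70 * (K : ℝ) * C₀ := by positivity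
      linarith
    have h4 : 6 * X ^ (1 - δ) ≤ C * X ^ (1 - δ) := mul_le_mul_of_nonneg_right h3 (by linarith)
    linarith
  obtain ⟨h, hh⟩ : ∃ h : ℕ, h = Nat.sqrt P + 1 := ⟨_, rfl⟩
  have hh1 : 1 ≤ h := by omega
  have hh2 : (h : ℝ) ^ 2 ≤ 4 * P := by
    have h1 : 1 ≤ Nat.sqrt P := Nat.sqrt_pos.2 hP1
    have h2 : Nat.sqrt P * Nat.sqrt P ≤ P := Nat.sqrt_le P
    have h3 : h ^ 2 ≤ 4 * P := by
      rw [hh]
      nlinarith
    exact_mod_cast h3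
  -- the property of functions
  obtain ⟨Bad, hBad⟩ : ∃ Bad : (ℕ → ℂ) → Prop, ∀ f, Bad f ↔ ∃ M N : ℕ, ((M + N : ℕ) : ℝ) ≤ X ∧
      C * X ^ (1 - δ) < ‖∑ a ∈ Ioc M (M + N), f a‖ := ⟨fun f => _, fun _ => Iff.rfl⟩
  obtain ⟨-, h1⟩ := cnt P Bad (by
    intro f f' hf
    rw [hBad, hBad]
    refine exists_congr fun M => exists_congr fun N => and_congr_right fun _ => ?_
    rw [sum_congr rfl fun a ha => hf a (by rw [mem_Ioc] at ha; omega)])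
  have h2 : {χ ∈ family P | ∃ M N : ℕ, ((M + N : ℕ) : ℝ) ≤ X ∧
      C * X ^ (1 - δ) < ‖∑ a ∈ Ioc M (M + N), χ.2 (a : ZMod χ.1)‖} =
      {χ ∈ family P | Bad fun n => χ.2 (n : ZMod χ.1)} := by
    ext χ
    simp only [Set.mem_ofPred_eq, hBad]
  rw [h2]
  refine h1.trans ?_
  -- one character modulo `1` or `9`
  obtain ⟨E, hE⟩ : ∃ E : ℝ, E = C₀ * (R : ℝ) ^ 2 * ((h : ℝ) ^ 2 * R + (R : ℝ) ^ (4 + 2 * η)) / (g : ℝ) ^ 4 :=
    ⟨_, rfl⟩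
  obtain ⟨F, hF⟩ : ∃ F : ∀ d : ℕ, DirichletCharacter ℂ d → Finset (ℕ × ℕ), ∀ d ψ, F d ψ =
      ((range (2 * (Nat.sqrt P + 1))) ×ˢ (range (2 * (Nat.sqrt P + 1)))).filter fun t : ℕ × ℕ =>
        Bad fun n => xi (al (-((Nat.sqrt P : ℤ) + 1) + t.1) (-((Nat.sqrt P : ℤ) + 1) + t.2)) n *
          ψ (n : ZMod d) := ⟨fun d ψ => _, fun _ _ => rfl⟩
  have hFE : ∀ (d : ℕ) (ψ : DirichletCharacter ℂ d), ((F d ψ).card : ℝ) ≤ E := by
    intro d ψ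
    rw [hE]
    refine le_trans ?_ (hex h R g hh1 hg1 hgR (fun n => ψ (n : ZMod d)) (fun n => DirichletCharacter.norm_le_one ψ _))
    rw [Nat.cast_le]
    apply card_le_card
    intro t ht
    rw [hF, mem_filter, ← hh] at ht
    rw [mem_filter]
    refine ⟨ht.1, ?_⟩
    obtain ⟨M, N, h3, h4⟩ := (hBad _).1 ht.2
    refine ⟨M, N, ?_, ?_⟩
    · rw [hR]
      exact Nat.le_floor h3
    · refine lt_of_le_of_lt hg3 (lt_of_lt_of_eq h4 ?_)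
      congr 1
      apply sum_congr rfl
      intro n _
      rw [mul_comm, hh]
      push_cast
      rfl
  have hcard : (((((range (2 * (Nat.sqrt P + 1))) ×ˢ (range (2 * (Nat.sqrt P + 1)))).filter fun t : ℕ × ℕ =>
      ∃ (d : ℕ) (ψ : DirichletCharacter ℂ d), (d = 1 ∨ d = 9) ∧ Bad fun n =>
        xi (al (-((Nat.sqrt P : ℤ) + 1) + t.1) (-((Nat.sqrt P : ℤ) + 1) + t.2)) n *
          ψ (n : ZMod d)).card : ℕ) : ℝ) ≤ K * E := by
    have h3 : (((range (2 * (Nat.sqrt P + 1))) ×ˢ (range (2 * (Nat.sqrt P + 1)))).filter fun t : ℕ × ℕ =>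
        ∃ (d : ℕ) (ψ : DirichletCharacter ℂ d), (d = 1 ∨ d = 9) ∧ Bad fun n =>
          xi (al (-((Nat.sqrt P : ℤ) + 1) + t.1) (-((Nat.sqrt P : ℤ) + 1) + t.2)) n *
            ψ (n : ZMod d)) ⊆
        (univ : Finset (DirichletCharacter ℂ 1)).biUnion (fun ψ => F 1 ψ) ∪
          (univ : Finset (DirichletCharacter ℂ 9)).biUnion (fun ψ => F 9 ψ) := by
      intro t ht
      rw [mem_filter] at ht
      obtain ⟨ht1, d, ψ, hd, ht2⟩ := ht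
      rw [mem_union, mem_biUnion, mem_biUnion]
      rcases hd with hd | hd
      · subst hd
        left
        refine ⟨ψ, mem_univ _, ?_⟩
        rw [hF, mem_filter]
        exact ⟨ht1, ht2⟩
      · subst hd
        right
        refine ⟨ψ, mem_univ _, ?_⟩
        rw [hF, mem_filter]
        exact ⟨ht1, ht2⟩
    have h4 := (card_le_card h3).trans ((card_union_le _ _).trans (Nat.add_le_add card_biUnion_le card_biUnion_le))
    have h5 : (((∑ ψ : DirichletCharacter ℂ 1, (F 1 ψ).card + ∑ ψ : DirichletCharacter ℂ 9, (F 9 ψ).card : ℕ)) : ℝ) ≤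
        K * E := by
      push_cast
      have h6 : ∑ ψ : DirichletCharacter ℂ 1, ((F 1 ψ).card : ℝ) ≤ Fintype.card (DirichletCharacter ℂ 1) * E := by
        refine (sum_le_sum fun ψ _ => hFE 1 ψ).trans ?_
        rw [sum_const, card_univ, nsmul_eq_mul]
      have h7 : ∑ ψ : DirichletCharacter ℂ 9, ((F 9 ψ).card : ℝ) ≤ Fintype.card (DirichletCharacter ℂ 9) * E := by
        refine (sum_le_sum fun ψ _ => hFE 9 ψ).trans ?_
        rw [sum_const, card_univ, nsmul_eq_mul]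
      rw [hK]
      push_cast
      linarith
    exact le_trans (by exact_mod_cast h4) h5
  have hest : E ≤ 10 * C₀ * (P / X ^ c) := by
    rw [hE]
    exact est hδ hc hη hη0 hC₀ hR1 hRX hXR hXP hg2 hh2
  have hK0 : (0 : ℝ) ≤ K := Nat.cast_nonneg _
  have hq : 0 ≤ (P : ℝ) / X ^ c := by positivity
  have h8 : (K : ℝ) * E ≤ K * (10 * C₀ * (P / X ^ c)) := mul_le_mul_of_nonneg_left hest hK0
  have h9 : C * P / X ^ c = 6 * (P / X ^ c) + 70 * K * C₀ * (P / X ^ c) := by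
    rw [hC]
    ring
  rw [h9]
  refine (mul_le_mul_of_nonneg_left (hcard.trans h8) (by norm_num)).trans ?_
  nlinarith

end

end Pool.Agent.Q79.CC
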